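import Pool.Agent.Helper12.XG.St

/-!
# Project XG (MP_627c93_nt): the integrals are integer linear forms in logarithms
-/

set_option autoImplicit false

namespace Pool.Agent.Helper6.XG

open Finset Polynomial Pool.Agent.Helper12.XG Pool.Agent.Helper14.GS

private lemma ker_int (q i N b j : ℕ) (hN : 1 ≤ N) :
    IntervalIntegrable (fun x : ℝ => x ^ (2 * q) * (1 - x) ^ (2 * q) *
      ((x + ((N + j : ℕ) : ℝ))⁻¹) ^ (b + 1 + i)) MeasureTheory.volume 0 1 := by
  apply ContinuousOn.intervalIntegrable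
  have h0 : ContinuousOn (fun x : ℝ => (x + ((N + j : ℕ) : ℝ))⁻¹) (Set.uIcc 0 1) := by
    apply ContinuousOn.inv₀
    · fun_prop
    · intro x hx
      rw [Set.uIcc_of_le (by norm_num)] at hx
      have h1 : (1 : ℝ) ≤ ((N + j : ℕ) : ℝ) := by
        have : 1 ≤ N + j := by omega
        exact_mod_cast this
      have := hx.1
      positivity
  apply ContinuousOn.mul
  · fun_prop
  · exact h0.pow _

private lemma Phi_eq (h q i N : ℕ) (β : ℕ → ℕ → ℤ) (hN : 1 ≤ N) :
    Phi h q β i N = ∑ j ∈ range (h + 1), ∑ b ∈ range q,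
      ((β j b : ℝ) * ((-1) ^ i * ((b + i).choose i : ℝ))) *
        ∫ x in (0 : ℝ)..1, x ^ (2 * q) * (1 - x) ^ (2 * q) *
          ((x + ((N + j : ℕ) : ℝ))⁻¹) ^ (b + 1 + i) := by
  unfold Phi
  have e1 : ∀ x : ℝ, x ^ (2 * q) * (1 - x) ^ (2 * q) * fI h q β i ((N : ℝ) + x) =
      ∑ j ∈ range (h + 1), ∑ b ∈ range q,
        ((β j b : ℝ) * ((-1) ^ i * ((b + i).choose i : ℝ))) *
          (x ^ (2 * q) * (1 - x) ^ (2 * q) * ((x + ((N + j : ℕ) : ℝ))⁻¹) ^ (b + 1 + i)) := by
    intro x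
    unfold fI
    rw [mul_sum]
    refine sum_congr rfl fun j _ => ?_
    rw [mul_sum]
    refine sum_congr rfl fun b _ => ?_
    have : (N : ℝ) + x + (j : ℝ) = x + ((N + j : ℕ) : ℝ) := by push_cast; ring
    rw [this]
    ring
  simp_rw [e1]
  rw [intervalIntegral.integral_finsetSum]
  · refine sum_congr rfl fun j _ => ?_
    rw [intervalIntegral.integral_finsetSum]
    · refine sum_congr rfl fun b _ => ?_
      rw [intervalIntegral.integral_const_mul]
    · intro b _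
      exact (ker_int q i N b j hN).const_mul _
  · intro j _
    have h2 := IntervalIntegrable.sum (μ := MeasureTheory.volume) (a := (0 : ℝ)) (b := 1) (range q)
      (f := fun b : ℕ => fun x : ℝ => ((β j b : ℝ) * ((-1) ^ i * ((b + i).choose i : ℝ))) *
        (x ^ (2 * q) * (1 - x) ^ (2 * q) * ((x + ((N + j : ℕ) : ℝ))⁻¹) ^ (b + 1 + i)))
      (fun b _ => (ker_int q i N b j hN).const_mul _)
    have h3 : (∑ b ∈ range q, fun x : ℝ => ((β j b : ℝ) * ((-1) ^ i * ((b + i).choose i : ℝ))) *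
        (x ^ (2 * q) * (1 - x) ^ (2 * q) * ((x + ((N + j : ℕ) : ℝ))⁻¹) ^ (b + 1 + i))) =
        fun x : ℝ => ∑ b ∈ range q, ((β j b : ℝ) * ((-1) ^ i * ((b + i).choose i : ℝ))) *
        (x ^ (2 * q) * (1 - x) ^ (2 * q) * ((x + ((N + j : ℕ) : ℝ))⁻¹) ^ (b + 1 + i)) := by
      funext x
      rw [Finset.sum_apply]
    rw [h3] at h2
    exact h2

/-- **ARI** (integer linear forms). -/
theorem hARI (hA2 : StA2) : StARI := by
  intro h q i N d β Bd hB hN hi hd
  have key : ∀ j b : ℕ, ∃ A r : ℤ, b < q →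
      |A| ≤ (((N + j : ℕ) : ℤ) + 2) ^ (2 * (2 * q)) ∧
      (d : ℝ) * ∫ x in (0 : ℝ)..1, x ^ (2 * q) * (1 - x) ^ (2 * q) *
          ((x + ((N + j : ℕ) : ℝ))⁻¹) ^ (b + 1 + i) =
        d * A * Real.log ((((N + j : ℕ) : ℝ) + 1) / ((N + j : ℕ) : ℝ)) + r := by
    intro j b
    by_cases hb : b < q
    · obtain ⟨A, r, h1, h2⟩ := hA2 (2 * q) (N + j) (b + 1 + i) d (by omega) (by omega) (by omega)
        (fun r h1 h2 => hd r h1 (by omega))
      exact ⟨A, r, fun _ => ⟨h1, h2⟩⟩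
    · exact ⟨0, 0, fun hb' => absurd hb' hb⟩
  choose A r hA using key
  have hBd : 0 ≤ Bd := le_trans (abs_nonneg _) (hB 0 0)
  refine ⟨fun j => ∑ b ∈ range q, β j b * ((-1) ^ i * ((b + i).choose i : ℤ)) * A j b,
    ∑ j ∈ range (h + 1), ∑ b ∈ range q, β j b * ((-1) ^ i * ((b + i).choose i : ℤ)) * r j b,
    ?_, ?_⟩
  · intro j hj
    have hjh : j ≤ h := by simpa [Nat.lt_succ_iff] using hj
    push_cast
    refine le_trans (abs_sum_le_sum_abs _ _) ?_
    have hterm : ∀ b ∈ range q,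
        |(β j b : ℝ) * ((-1) ^ i * ((b + i).choose i : ℝ)) * (A j b : ℝ)| ≤
          Bd * 2 ^ (2 * q) * ((N : ℝ) + h + 2) ^ (4 * q) := by
      intro b hb
      have hb' : b < q := mem_range.mp hb
      rw [abs_mul, abs_mul, abs_mul, abs_pow, abs_neg, abs_one, one_pow, one_mul]
      have h1 : |(β j b : ℝ)| ≤ Bd := hB j b
      have h2 : |((b + i).choose i : ℝ)| ≤ 2 ^ (2 * q) := by
        rw [abs_of_nonneg (by positivity)]
        have h3 : (b + i).choose i ≤ 2 ^ (2 * q) :=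
          le_trans (Nat.choose_le_two_pow _ _) (Nat.pow_le_pow_right (by norm_num) (by omega))
        exact_mod_cast h3
      have h4 : |(A j b : ℝ)| ≤ ((N : ℝ) + h + 2) ^ (4 * q) := by
        have h5 := (hA j b hb').1
        have h6 : |(A j b : ℝ)| ≤ (((N + j : ℕ) : ℝ) + 2) ^ (2 * (2 * q)) := by
          exact_mod_cast h5
        refine le_trans h6 ?_
        have e : 2 * (2 * q) = 4 * q := by ring
        rw [e]
        apply pow_le_pow_left₀ (by positivity)
        have : (j : ℝ) ≤ h := by exact_mod_cast hjh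
        push_cast
        linarith
      have h7 : |(β j b : ℝ)| * |((b + i).choose i : ℝ)| ≤ Bd * 2 ^ (2 * q) :=
        mul_le_mul h1 h2 (abs_nonneg _) hBd
      exact mul_le_mul h7 h4 (abs_nonneg _) (by positivity)
    refine le_trans (sum_le_sum hterm) ?_
    rw [sum_const, card_range, nsmul_eq_mul]
    apply le_of_eq
    ring
  · rw [Phi_eq h q i N β hN, mul_sum]
    push_cast
    rw [← sum_add_distrib]
    refine sum_congr rfl fun j _ => ?_
    rw [mul_sum]
    rw [mul_sum, sum_mul, ← sum_add_distrib]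
    refine sum_congr rfl fun b hb => ?_
    have h1 := (hA j b (mem_range.mp hb)).2
    push_cast at h1
    have h2 : (d : ℝ) * (((β j b : ℝ) * ((-1) ^ i * ((b + i).choose i : ℝ))) *
        ∫ x in (0 : ℝ)..1, x ^ (2 * q) * (1 - x) ^ (2 * q) *
          ((x + ((N : ℝ) + (j : ℝ)))⁻¹) ^ (b + 1 + i)) =
        ((β j b : ℝ) * ((-1) ^ i * ((b + i).choose i : ℝ))) * ((d : ℝ) *
        ∫ x in (0 : ℝ)..1, x ^ (2 * q) * (1 - x) ^ (2 * q) *
          ((x + ((N : ℝ) + (j : ℝ)))⁻¹) ^ (b + 1 + i)) := by ring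
    rw [h2, h1]
    ring

end Pool.Agent.Helper6.XG
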